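import Pool.Agent.V11256.CG.PolyT
import Pool.Agent.V11256.ST.Main

/-!
# The chromatic number of Cayley graphs of powers of a group
-/

set_option autoImplicit false
set_option linter.unusedSectionVars false
set_option linter.unusedVariables false

namespace Pool.Agent.V11256.CG

open Pool.Agent.NPC
open Pool.Agent.V11256.ST (LG)

/-- The graph is isomorphic to a Cayley graph `X(G ^ n, C)`, `n ≥ 1`. -/
def InClass (G : Type) [Group G] (x : LG) : Prop :=
  ∃ n : ℕ, 1 ≤ n ∧ ∃ (C : Set (Fin n → G)) (h1 : (1 : Fin n → G) ∉ C) (h2 : ∀ c ∈ C, c⁻¹ ∈ C),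
    Nonempty (cay C h1 h2 ≃g ST.gr x)

theorem hardPr_cay (G : Type) [Group G] [Finite G] [Nontrivial G] :
    HardPr (fun x : LG × ℕ => InClass G x.1)
      (fun x : LG × ℕ => (ST.gr x.1).chromaticNumber ≤ x.2) := by
  classical
  haveI := Fintype.ofFinite G
  set g := Fintype.card G with hgdef
  have hg : 2 ≤ g := Fintype.one_lt_card
  set p := g.minFac with hpdef
  have hpp : p.Prime := Nat.minFac_prime (by omega)
  haveI : Fact p.Prime := ⟨hpp⟩
  obtain ⟨a, ha⟩ := exists_prime_orderOf_dvd_card (G := G) p (Nat.minFac_dvd g)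
  have e : G ≃ Fin g := Fintype.equivFin G
  refine hardPr_SAT3b.trans (f := red g p (ptab e a p) (tbl e hg))
    (red_poly g p (ptab e a p) (tbl e hg)) (fun φ _ => ?_) (fun φ hφ => ?_)
  · exact ⟨rr φ + 5 * (5 * TT g φ), by unfold TT; omega, Cc e hg a (rr φ) (TT g φ) (nc φ),
      Cc_one e hg a (rr φ) (TT g φ) (nc φ), Cc_inv e hg a (rr φ) (TT g φ) (nc φ) (nc_symm φ),
      listIso e hg a φ ha hpp.pos⟩
  · obtain ⟨E⟩ := listIso e hg a φ ha hpp.pos
    have h2 : 2 ^ rr φ ≤ g ^ rr φ := Nat.pow_le_pow_left hg _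
    have h3 := lt_two_rr φ
    rw [SimpleGraph.chromaticNumber_le_iff_colorable]
    rw [sat_iff φ hφ.2.2 (M := g ^ rr φ) (by omega)]
    constructor
    · rintro ⟨f, hf⟩
      exact (color_of e hg a (rr φ) (TT g φ) (nc_symm φ) rfl f hf).of_hom E.symm.toHom
    · intro h
      refine of_color e hg a (rr φ) (TT g φ) (nc_symm φ) rfl ha ?_ ?_ ?_
        (h.of_hom E.toHom)
      · unfold TT; omega
      · calc 3 * g ^ rr φ ≤ 4 * (2 ^ g) ^ rr φ :=
              Nat.mul_le_mul (by norm_num) (Nat.pow_le_pow_left Nat.lt_two_pow_self.le _)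
          _ = 2 ^ (g * rr φ + 2) := by rw [pow_add, pow_mul]; ring
          _ = _ := rfl
      · omega

end Pool.Agent.V11256.CG
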