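import Pool.Agent.V11256.CG.Group
import Pool.Agent.V11256.ST.Mem
import Pool.Agent.NPC.Sat2

/-!
# The reduction as a function on lists
-/

set_option autoImplicit false
set_option linter.unusedSectionVars false
set_option linter.unusedVariables false

namespace Pool.Agent.V11256.CG

open Finset Pool.Agent.NPC
open Pool.Agent.V11256.ST (LG)

abbrev Φ : Type := List (Lit ℕ × Lit ℕ × Lit ℕ)

/-- The number of coordinates for the clause. -/
def rr (φ : Φ) : ℕ := (φ.length + 8).bits.length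
/-- The number of bits. -/
def TT (g : ℕ) (φ : Φ) : ℕ := g * rr φ + 2
/-- The number of coordinates. -/
def nn (g : ℕ) (φ : Φ) : ℕ := rr φ + 5 * (5 * TT g φ)
/-- The number of clause vertices. -/
def MM (g : ℕ) (φ : Φ) : ℕ := 3 * g ^ rr φ
/-- The number of vertices. -/
def NN (g : ℕ) (φ : Φ) : ℕ := g ^ nn g φ

/-- The clause. -/
def cl (φ : Φ) (v : ℕ) : Lit ℕ × Lit ℕ × Lit ℕ :=
  φ.getD (v / 3 % φ.length) ((false, 0), (false, 0), (false, 0))

/-- The literal. -/
def lit (φ : Φ) (v : ℕ) : Bool × ℕ := if v % 3 = 0 then (cl φ v).1 else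
  if v % 3 = 1 then (cl φ v).2.1 else (cl φ v).2.2

/-- Compatible literals. -/
def ncB (φ : Φ) (v v' : ℕ) : Bool :=
  !(decide ((lit φ v).2 = (lit φ v').2)) || !((lit φ v).1 ^^ (lit φ v').1)

/-- Compatible vertices. -/
def RB (φ : Φ) (v v' : ℕ) : Bool := !(decide (v / 3 = v' / 3)) && ncB φ v v'

/-- Digits. -/
def dg (g n x j : ℕ) : ℕ := x / g ^ (min j n) % g

/-- Coefficients. -/
def cfk (T k v l : ℕ) : ℕ := if k = 1 then cf T 1 v l else if k = 2 then cf T 2 v l else
  if k = 3 then cf T 3 v l else if k = 4 then cf T 4 v l else cf T 5 v l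

/-- The digits of the points. -/
def WD (g p : ℕ) (pt : List ℕ) (φ : Φ) (v j : ℕ) : ℕ :=
  if j < rr φ then dg g (nn g φ) (v / 3) j else
    pt.getD (cfk (TT g φ) ((j - rr φ) / (5 * TT g φ) + 1) v ((j - rr φ) % (5 * TT g φ)) % p) 0

/-- Table lookup. -/
def tb (g : ℕ) (tl : List ℕ) (x y : ℕ) : ℕ := tl.getD (x * g + y) 0

/-- Equal differences. -/
def eqB (g p : ℕ) (pt tl : List ℕ) (φ : Φ) (x x' v v' : ℕ) : Bool :=
  (List.range (nn g φ)).all fun j => decide (tb g tl (dg g (nn g φ) x j) (dg g (nn g φ) x' j) =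
    tb g tl (WD g p pt φ v j) (WD g p pt φ v' j))

/-- Adjacency. -/
def adjN (g p : ℕ) (pt tl : List ℕ) (φ : Φ) (x x' : ℕ) : Bool :=
  !(decide (x = x')) && !((List.range (MM g φ)).any fun v => (List.range (MM g φ)).any fun v' =>
    RB φ v v' && eqB g p pt tl φ x x' v v')

/-- Vertices. -/
def VL (g : ℕ) (φ : Φ) : List ℕ := List.range (NN g φ)

/-- Edges. -/
def EL (g p : ℕ) (pt tl : List ℕ) (φ : Φ) : List (ℕ × ℕ) :=
  (List.range (NN g φ)).flatMap fun x =>
    ((List.range (NN g φ)).filter fun x' => adjN g p pt tl φ x x').map fun x' => (x, x')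

/-- The reduction. -/
def red (g p : ℕ) (pt tl : List ℕ) (φ : Φ) : LG × ℕ :=
  ((VL g φ, EL g p pt tl φ), g ^ (5 * (5 * TT g φ)))

/-- Compatible literals. -/
def nc (φ : Φ) (v v' : ℕ) : Prop := ncB φ v v' = true

theorem nc_iff (φ : Φ) (v v' : ℕ) :
    nc φ v v' ↔ ((lit φ v).2 = (lit φ v').2 → (lit φ v).1 = (lit φ v').1) := by
  unfold nc ncB
  by_cases h : (lit φ v).2 = (lit φ v').2
  · simp only [h, decide_true, Bool.not_true, Bool.false_or, Bool.not_eq_true', true_imp_iff]
    cases (lit φ v).1 <;> cases (lit φ v').1 <;> simp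
  · simp [h]

theorem nc_symm (φ : Φ) : ∀ v v', nc φ v v' → nc φ v' v := by
  intro v v' h
  rw [nc_iff] at h ⊢
  exact fun e => (h e.symm).symm

/-! ### Satisfiability -/

theorem sat_iff (φ : Φ) (hφ : φ ≠ []) {M : ℕ} (hM : φ.length ≤ M) :
    SAT3 φ ↔ ∃ f : Fin M → Fin 3,
      ∀ q q', q ≠ q' → nc φ (3 * q.1 + (f q).1) (3 * q'.1 + (f q').1) := by
  have hlen : 0 < φ.length := List.length_pos_iff.2 hφ
  have hcl : ∀ q (i : Fin 3), (cl φ (3 * q + i.1)) ∈ φ := by
    intro q i
    have h3 : (3 * q + i.1) / 3 = q := by have := i.2; omega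
    unfold cl
    rw [h3, List.getD_eq_getElem _ _ (Nat.mod_lt _ hlen)]
    exact List.getElem_mem _
  have hcq : ∀ q (i j : Fin 3), cl φ (3 * q + i.1) = cl φ (3 * q + j.1) := by
    intro q i j
    have h3 : (3 * q + i.1) / 3 = q := by have := i.2; omega
    have h4 : (3 * q + j.1) / 3 = q := by have := j.2; omega
    unfold cl
    rw [h3, h4]
  have hl0 : ∀ q, lit φ (3 * q + (0 : Fin 3).1) = (cl φ (3 * q + (0 : Fin 3).1)).1 := by
    intro q
    unfold lit
    rw [if_pos (by simp)]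
  have hl1 : ∀ q, lit φ (3 * q + (1 : Fin 3).1) = (cl φ (3 * q + (0 : Fin 3).1)).2.1 := by
    intro q
    unfold lit
    have h1 : (3 * q + (1 : Fin 3).1) % 3 = 1 := by simp
    rw [h1, if_neg (by norm_num), if_pos rfl, hcq q 1 0]
  have hl2 : ∀ q, lit φ (3 * q + (2 : Fin 3).1) = (cl φ (3 * q + (0 : Fin 3).1)).2.2 := by
    intro q
    unfold lit
    have h1 : (3 * q + (2 : Fin 3).1) % 3 = 2 := by
      change (3 * q + 2) % 3 = 2; omega
    rw [h1, if_neg (by norm_num), if_neg (by norm_num), hcq q 2 0]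
  constructor
  · rintro ⟨τ, hτ⟩
    have key : ∀ q : Fin M, ∃ i : Fin 3, τ (lit φ (3 * q.1 + i.1)).2 = (lit φ (3 * q.1 + i.1)).1 := by
      intro q
      rcases hτ _ (hcl q.1 0) with h | h | h
      · exact ⟨0, by rw [hl0]; exact h⟩
      · exact ⟨1, by rw [hl1]; exact h⟩
      · exact ⟨2, by rw [hl2]; exact h⟩
    choose f hf using key
    refine ⟨f, fun q q' _ => ?_⟩
    rw [nc_iff]
    intro h
    rw [← hf q, ← hf q', h]
  · rintro ⟨f, hf⟩
    classical
    refine ⟨fun x => decide (∃ q : Fin M, lit φ (3 * q.1 + (f q).1) = (true, x)), ?_⟩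
    have key : ∀ q : Fin M, decide (∃ q' : Fin M, lit φ (3 * q'.1 + (f q').1) =
        (true, (lit φ (3 * q.1 + (f q).1)).2)) = (lit φ (3 * q.1 + (f q).1)).1 := by
      intro q
      cases hb : (lit φ (3 * q.1 + (f q).1)).1 with
      | true => exact decide_eq_true ⟨q, Prod.ext hb rfl⟩
      | false =>
        rw [decide_eq_false_iff_not]
        rintro ⟨q', hq'⟩
        by_cases e : q' = q
        · subst e
          rw [hq'] at hb
          simp at hb
        · have h1 := (nc_iff φ _ _).1 (hf q' q e) (by rw [hq'])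
          rw [hq', hb] at h1
          simp at h1
    intro c hc
    obtain ⟨i, hi, rfl⟩ := List.getElem_of_mem hc
    have hq : (φ[i]) = cl φ (3 * i + (0 : Fin 3).1) := by
      unfold cl
      have h3 : (3 * i + (0 : Fin 3).1) / 3 = i := by simp
      rw [h3, Nat.mod_eq_of_lt hi, List.getD_eq_getElem _ _ hi]
    have hk := key ⟨i, by omega⟩
    simp only at hk
    rw [hq]
    have h3 : f ⟨i, by omega⟩ = 0 ∨ f ⟨i, by omega⟩ = 1 ∨ f ⟨i, by omega⟩ = 2 := by
      generalize f ⟨i, by omega⟩ = z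
      fin_cases z <;> simp
    rcases h3 with h | h | h
    · left
      rw [h, hl0] at hk
      exact hk
    · right; left
      rw [h, hl1] at hk
      exact hk
    · right; right
      rw [h, hl2] at hk
      exact hk

/-! ### Bounds -/

theorem rr_eq (φ : Φ) : rr φ = (φ.length + 8).size := Nat.size_eq_bits_len _

theorem lt_two_rr (φ : Φ) : φ.length + 8 < 2 ^ rr φ := by
  rw [rr_eq]; exact Nat.lt_size_self _

theorem two_rr_le (φ : Φ) : 2 ^ rr φ ≤ 2 * (φ.length + 8) := by
  have h0 : 0 < rr φ := by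
    rcases Nat.eq_zero_or_pos (rr φ) with h | h
    · have := lt_two_rr φ
      rw [h] at this
      simp at this
    · exact h
  have h1 : rr φ - 1 < (φ.length + 8).size := by rw [← rr_eq]; omega
  have h2 := Nat.lt_size.1 h1
  calc 2 ^ rr φ = 2 * 2 ^ (rr φ - 1) := by rw [← pow_succ']; congr 1; omega
    _ ≤ _ := Nat.mul_le_mul_left _ h2

section

variable {G : Type} [Group G] {g : ℕ} (e : G ≃ Fin g) (hg : 2 ≤ g) (a : G) {p : ℕ}

/-- The table of powers. -/
def ptab (p : ℕ) : List ℕ := (List.range p).map fun c => (e (a ^ c)).1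

/-- The table of differences. -/
def tbl : List ℕ := (List.range (g * g)).map fun z =>
  (e ((e.symm ⟨z / g % g, Nat.mod_lt _ (by omega)⟩)⁻¹ *
    e.symm ⟨z % g, Nat.mod_lt _ (by omega)⟩)).1

theorem tb_spec (u u' : G) : tb g (tbl e hg) (e u).1 (e u').1 = (e (u⁻¹ * u')).1 := by
  have h1 := (e u).2
  have h2 := (e u').2
  have h3 : (e u).1 * g + (e u').1 < g * g := by
    calc (e u).1 * g + (e u').1 < (e u).1 * g + g := by omega
      _ = ((e u).1 + 1) * g := by ring
      _ ≤ g * g := Nat.mul_le_mul_right _ h1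
  unfold tb tbl
  rw [List.getD_eq_getElem _ _ (by simpa using h3), List.getElem_map, List.getElem_range]
  have h4 : ((e u).1 * g + (e u').1) / g % g = (e u).1 := by
    rw [Nat.mul_comm, Nat.mul_add_div (by omega), Nat.div_eq_of_lt h2, add_zero,
      Nat.mod_eq_of_lt h1]
  have h5 : ((e u).1 * g + (e u').1) % g = (e u').1 := by
    rw [Nat.mul_comm, Nat.mul_add_mod, Nat.mod_eq_of_lt h2]
  have h6 : e.symm ⟨((e u).1 * g + (e u').1) / g % g, Nat.mod_lt _ (by omega)⟩ = u := by
    rw [Equiv.symm_apply_eq]; exact Fin.ext h4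
  have h7 : e.symm ⟨((e u).1 * g + (e u').1) % g, Nat.mod_lt _ (by omega)⟩ = u' := by
    rw [Equiv.symm_apply_eq]; exact Fin.ext h5
  rw [h6, h7]

theorem ptab_spec (hp : orderOf a = p) (hp0 : 0 < p) (c : ℕ) :
    (ptab e a p).getD (c % p) 0 = (e (a ^ c)).1 := by
  have h1 : c % p < p := Nat.mod_lt _ hp0
  unfold ptab
  rw [List.getD_eq_getElem _ _ (by simpa using h1), List.getElem_map, List.getElem_range,
    ← hp, pow_mod_orderOf]

variable (φ : Φ)

theorem dg_spec (x j : ℕ) (hj : j < nn g φ) : dg g (nn g φ) x j = (e (dec e hg x j)).1 := by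
  unfold dg dec
  rw [min_eq_left hj.le, Equiv.apply_symm_apply]

theorem WD_spec (hp : orderOf a = p) (hp0 : 0 < p) (v j : ℕ) (hj : j < nn g φ) :
    WD g p (ptab e a p) φ v j = (e (w e hg a (rr φ) (TT g φ) v j)).1 := by
  unfold WD w
  split_ifs with h
  · exact dg_spec e hg φ _ _ hj
  · have hT : 0 < 5 * TT g φ := by unfold TT; omega
    have h5 : (j - rr φ) / (5 * TT g φ) < 5 := by
      rw [Nat.div_lt_iff_lt_mul hT]
      unfold nn at hj
      omega
    have h6 : cfk (TT g φ) ((j - rr φ) / (5 * TT g φ) + 1) v ((j - rr φ) % (5 * TT g φ)) =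
        cf (TT g φ) ((j - rr φ) / (5 * TT g φ) + 1) v ((j - rr φ) % (5 * TT g φ)) := by
      generalize (j - rr φ) / (5 * TT g φ) = k at h5
      interval_cases k <;> simp [cfk]
    rw [h6]
    exact ptab_spec e a hp hp0 _

/-- The group element of a number. -/
def decf (x : ℕ) : Fin (rr φ + 5 * (5 * TT g φ)) → G := fun j => dec e hg x j.1

theorem eqB_iff (hp : orderOf a = p) (hp0 : 0 < p) (x x' v v' : ℕ) :
    eqB g p (ptab e a p) (tbl e hg) φ x x' v v' = true ↔
      (decf e hg φ x)⁻¹ * decf e hg φ x' =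
        (wf e hg a (rr φ) (TT g φ) v)⁻¹ * wf e hg a (rr φ) (TT g φ) v' := by
  unfold eqB
  rw [List.all_eq_true]
  constructor
  · intro h
    ext ⟨j, hj⟩
    have h1 := of_decide_eq_true (h j (List.mem_range.2 hj))
    rw [dg_spec e hg φ _ _ hj, dg_spec e hg φ _ _ hj, WD_spec e hg a φ hp hp0 _ _ hj,
      WD_spec e hg a φ hp hp0 _ _ hj, tb_spec, tb_spec] at h1
    exact e.injective (Fin.ext h1)
  · intro h j hj
    rw [List.mem_range] at hj
    rw [decide_eq_true_eq, dg_spec e hg φ _ _ hj, dg_spec e hg φ _ _ hj,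
      WD_spec e hg a φ hp hp0 _ _ hj, WD_spec e hg a φ hp hp0 _ _ hj, tb_spec, tb_spec]
    have := congrFun h ⟨j, hj⟩
    simp only [Pi.mul_apply, Pi.inv_apply] at this
    exact congrArg (fun z => (e z).1) this

theorem adjN_iff (hp : orderOf a = p) (hp0 : 0 < p) (x x' : ℕ)
    (hinj : decf e hg φ x = decf e hg φ x' → x = x') :
    adjN g p (ptab e a p) (tbl e hg) φ x x' = true ↔
      (Xg e hg a (rr φ) (TT g φ) (nc φ) (nc_symm φ)).Adj (decf e hg φ x) (decf e hg φ x') := by
  unfold adjN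
  rw [Bool.and_eq_true, Bool.not_eq_true', decide_eq_false_iff_not, Bool.not_eq_true']
  change _ ↔ (_ ≠ 1 ∧ _ ∉ Cs e hg a (rr φ) (TT g φ) (nc φ))
  refine and_congr ?_ ?_
  · rw [not_iff_not, inv_mul_eq_one]
    exact ⟨fun h => by rw [h], hinj⟩
  · rw [← Bool.not_eq_true, not_iff_not, List.any_eq_true]
    constructor
    · rintro ⟨v, hv, h⟩
      rw [List.any_eq_true] at h
      obtain ⟨v', hv', h⟩ := h
      rw [List.mem_range] at hv hv'
      rw [Bool.and_eq_true, eqB_iff e hg a φ hp hp0] at h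
      unfold RB at h
      rw [Bool.and_eq_true, Bool.not_eq_true', decide_eq_false_iff_not] at h
      exact ⟨⟨v, hv⟩, ⟨v', hv'⟩, ⟨h.1.1, h.1.2⟩, h.2⟩
    · rintro ⟨v, v', ⟨h1, h2⟩, h3⟩
      refine ⟨v.1, List.mem_range.2 v.2, ?_⟩
      rw [List.any_eq_true]
      refine ⟨v'.1, List.mem_range.2 v'.2, ?_⟩
      rw [Bool.and_eq_true, eqB_iff e hg a φ hp hp0]
      unfold RB
      rw [Bool.and_eq_true, Bool.not_eq_true', decide_eq_false_iff_not]
      exact ⟨⟨h1, h2⟩, h3⟩

/-- The number of a group element. -/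
def code (x : Fin (rr φ + 5 * (5 * TT g φ)) → G) : ℕ := (finFunctionFinEquiv (fun j => e (x j))).1

theorem code_lt (x : Fin (rr φ + 5 * (5 * TT g φ)) → G) : code e φ x < NN g φ :=
  (finFunctionFinEquiv (fun j => e (x j))).2

theorem decf_code (x : Fin (rr φ + 5 * (5 * TT g φ)) → G) : decf e hg φ (code e φ x) = x := by
  funext j
  unfold decf dec
  rw [Equiv.symm_apply_eq]
  apply Fin.ext
  simp only
  have := finFunctionFinEquiv_symm_apply_val (finFunctionFinEquiv (fun j => e (x j))) j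
  rw [Equiv.symm_apply_apply] at this
  exact this.symm

theorem code_decf (x : ℕ) (hx : x < NN g φ) : code e φ (decf e hg φ x) = x := by
  have h : (fun j : Fin (rr φ + 5 * (5 * TT g φ)) => e (decf e hg φ x j)) =
      finFunctionFinEquiv.symm (⟨x, hx⟩ : Fin (g ^ (rr φ + 5 * (5 * TT g φ)))) := by
    funext j
    unfold decf dec
    rw [Equiv.apply_symm_apply]
    apply Fin.ext
    rw [finFunctionFinEquiv_symm_apply_val]
  unfold code
  rw [h, Equiv.apply_symm_apply]

/-- The graph given by the lists is the Cayley graph. -/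
theorem listIso (hp : orderOf a = p) (hp0 : 0 < p) :
    Nonempty (Xg e hg a (rr φ) (TT g φ) (nc φ) (nc_symm φ) ≃g
      ST.gr (red g p (ptab e a p) (tbl e hg) φ).1) := by
  have hinj : Function.Injective (code e φ) := by
    intro x x' h
    rw [← decf_code e hg φ x, h, decf_code]
  refine ⟨⟨Equiv.ofBijective (fun x => ⟨code e φ x, List.mem_range.2 (code_lt e φ x)⟩) ⟨?_, ?_⟩, ?_⟩⟩
  · intro u v h
    exact hinj (congrArg Subtype.val h)
  · rintro ⟨m, hm⟩
    have hm' : m < NN g φ := List.mem_range.1 hm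
    exact ⟨decf e hg φ m, Subtype.ext (code_decf e hg φ m hm')⟩
  · intro u v
    simp only [Equiv.ofBijective_apply]
    have hE : ∀ u v : Fin (rr φ + 5 * (5 * TT g φ)) → G,
        (code e φ u, code e φ v) ∈ (red g p (ptab e a p) (tbl e hg) φ).1.2 ↔
        (Xg e hg a (rr φ) (TT g φ) (nc φ) (nc_symm φ)).Adj u v := by
      intro u v
      change _ ∈ EL g p (ptab e a p) (tbl e hg) φ ↔ _
      unfold EL
      rw [List.mem_flatMap]
      have key := adjN_iff e hg a φ hp hp0 (code e φ u) (code e φ v) (by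
        intro h
        rw [decf_code, decf_code] at h
        rw [h])
      rw [decf_code, decf_code] at key
      rw [← key]
      constructor
      · rintro ⟨x, _, h⟩
        rw [List.mem_map] at h
        obtain ⟨x', h1, h2⟩ := h
        rw [List.mem_filter] at h1
        simp only [Prod.mk.injEq] at h2
        rw [← h2.1, ← h2.2]
        exact h1.2
      · intro h
        exact ⟨_, List.mem_range.2 (code_lt e φ u), List.mem_map.2 ⟨_, List.mem_filter.2
          ⟨List.mem_range.2 (code_lt e φ v), h⟩, rfl⟩⟩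
    constructor
    · rintro ⟨_, h | h⟩
      · exact (hE u v).1 h
      · exact ((hE v u).1 h).symm
    · intro h
      exact ⟨fun h' => h.ne (hinj (congrArg Subtype.val h')), Or.inl ((hE u v).2 h)⟩

end

end Pool.Agent.V11256.CG
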