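import Mathlib

/-!
# Vectors any six of which are independent, over `Z_p`
-/

set_option autoImplicit false
set_option linter.unusedSectionVars false
set_option linter.unusedVariables false

namespace Pool.Agent.V11256.CG

open Finset Polynomial

/-- Bits. -/
def bt (T v i : ℕ) : ℕ := v / 2 ^ (min i T) % 2

/-- Coefficients of the powers of the polynomial whose coefficients are the bits of `v`. -/
def cf (T : ℕ) : ℕ → ℕ → ℕ → ℕ
  | 0, _, l => if l = 0 then 1 else 0
  | k + 1, v, l => ((List.range T).map fun i => if i ≤ l then bt T v i * cf T k v (l - i)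
      else 0).sum

theorem sum_list_range (f : ℕ → ℕ) (n : ℕ) : ((List.range n).map f).sum = ∑ i ∈ range n, f i := by
  induction n with
  | zero => simp
  | succ n ih => rw [List.range_succ, List.map_append, List.sum_append, ih, sum_range_succ]; simp

theorem cf_zero (T : ℕ) : ∀ k v l, k * T ≤ l → 0 < l → cf T k v l = 0 := by
  intro k
  induction k with
  | zero =>
    intro v l _ h
    simp only [cf]
    rw [if_neg (by omega)]
  | succ k ih =>
    intro v l h1 h2
    simp only [cf]
    rw [sum_list_range]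
    refine sum_eq_zero fun i hi => ?_
    rw [mem_range] at hi
    split_ifs with h3
    · rw [ih v (l - i) ?_ ?_, mul_zero]
      · rw [Nat.succ_mul] at h1; omega
      · rw [Nat.succ_mul] at h1; omega
    · rfl

section

variable (p : ℕ) [Fact p.Prime] (T : ℕ)

/-- The polynomial of a number. -/
noncomputable def P (v : ℕ) : (ZMod p)[X] := ∑ i ∈ range T, C ((bt T v i : ℕ) : ZMod p) * X ^ i

theorem coeff_P_pow (v : ℕ) : ∀ k l, (P p T v ^ k).coeff l = ((cf T k v l : ℕ) : ZMod p) := by
  intro k
  induction k with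
  | zero =>
    intro l
    rw [pow_zero, coeff_one]
    simp only [cf]
    split_ifs <;> simp
  | succ k ih =>
    intro l
    simp only [cf]
    rw [sum_list_range, pow_succ', P, sum_mul, finset_sum_coeff, Nat.cast_sum]
    refine sum_congr rfl fun i hi => ?_
    rw [mul_assoc, coeff_C_mul, coeff_X_pow_mul']
    split_ifs with h
    · rw [← P, ih]; push_cast; rfl
    · simp

theorem P_inj {v v' : ℕ} (hv : v < 2 ^ T) (hv' : v' < 2 ^ T) (h : P p T v = P p T v') : v = v' := by
  have hp : 2 ≤ p := (Fact.out : p.Prime).two_le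
  have h1 : ∀ i < T, v / 2 ^ i % 2 = v' / 2 ^ i % 2 := by
    intro i hi
    have h2 : ∀ w, (P p T w).coeff i = ((bt T w i : ℕ) : ZMod p) := by
      intro w
      unfold P
      rw [finset_sum_coeff, sum_eq_single i]
      · rw [coeff_C_mul, coeff_X_pow, if_pos rfl, mul_one]
      · intro j _ hj
        rw [coeff_C_mul, coeff_X_pow, if_neg hj.symm, mul_zero]
      · intro h; exact absurd (mem_range.2 hi) h
    have h3 := congrArg (fun q => q.coeff i) h
    simp only [h2] at h3
    have h4 : ∀ w, bt T w i < p := fun w => lt_of_lt_of_le (Nat.mod_lt _ (by norm_num)) hp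
    have h5 : bt T v i = bt T v' i := by
      have := (ZMod.natCast_eq_natCast_iff' _ _ _).1 h3
      rwa [Nat.mod_eq_of_lt (h4 v), Nat.mod_eq_of_lt (h4 v')] at this
    unfold bt at h5
    rwa [min_eq_left hi.le] at h5
  apply Nat.eq_of_testBit_eq
  intro i
  rcases lt_or_ge i T with hi | hi
  · rw [Nat.testBit_eq_decide_div_mod_eq, Nat.testBit_eq_decide_div_mod_eq, h1 i hi]
  · rw [Nat.testBit_eq_false_of_lt (lt_of_lt_of_le hv (Nat.pow_le_pow_right (by norm_num) hi)),
      Nat.testBit_eq_false_of_lt (lt_of_lt_of_le hv' (Nat.pow_le_pow_right (by norm_num) hi))]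

theorem indep (hT : 0 < T) {M : ℕ} (hM : M ≤ 2 ^ T) (u : Fin M → ZMod p)
    (hs : (univ.filter fun v => u v ≠ 0).card ≤ 6) (h0 : ∑ v, u v = 0)
    (h : ∀ k < 5, ∀ l < 5 * T, ∑ v : Fin M, u v * ((cf T (k + 1) v.1 l : ℕ) : ZMod p) = 0) :
    u = 0 := by
  classical
  have key : ∀ k < 6, ∑ v : Fin M, C (u v) * P p T v.1 ^ k = 0 := by
    intro k hk
    ext l
    rw [finset_sum_coeff, coeff_zero]
    simp only [coeff_C_mul, coeff_P_pow]
    rcases Nat.eq_zero_or_pos k with rfl | hk0
    · simp only [cf]
      rcases Nat.eq_zero_or_pos l with rfl | hl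
      · simpa using h0
      · simp [hl.ne']
    · obtain ⟨k', rfl⟩ : ∃ k', k = k' + 1 := ⟨k - 1, by omega⟩
      rcases lt_or_ge l (5 * T) with hl | hl
      · exact h k' (by omega) l hl
      · refine sum_eq_zero fun v _ => ?_
        have h1 : (k' + 1) * T ≤ l := le_trans (Nat.mul_le_mul_right _ (by omega)) hl
        rw [cf_zero T _ _ _ h1 (by omega)]
        simp
  set s : Finset (Fin M) := univ.filter fun v => u v ≠ 0 with hsdef
  by_contra hu
  have hsn : s.Nonempty := by
    obtain ⟨v, hv⟩ := Function.ne_iff.1 hu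
    exact ⟨v, mem_filter.2 ⟨mem_univ _, hv⟩⟩
  set e := s.equivFin.symm with he
  have hinj : Function.Injective (fun i : Fin s.card => P p T (e i).1.1) := by
    intro i j hij
    have h1 := P_inj p T (lt_of_lt_of_le (e i).1.2 hM) (lt_of_lt_of_le (e j).1.2 hM) hij
    exact e.injective (Subtype.ext (Fin.ext h1))
  have hdet : (Matrix.vandermonde (fun i : Fin s.card => P p T (e i).1.1)).det ≠ 0 :=
    Matrix.det_vandermonde_ne_zero_iff.2 hinj
  have hz : (fun i : Fin s.card => C (u (e i).1)) = 0 := by
    refine Matrix.eq_zero_of_vecMul_eq_zero hdet ?_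
    ext1 j
    simp only [Matrix.vecMul, dotProduct, Matrix.vandermonde_apply, Pi.zero_apply]
    rw [← key j.1 (lt_of_lt_of_le j.2 hs), ← sum_subset (subset_univ s) (fun v _ hv => by
      have : u v = 0 := by
        by_contra hc
        exact hv (mem_filter.2 ⟨mem_univ _, hc⟩)
      rw [this]; simp)]
    rw [← sum_coe_sort s]
    exact Equiv.sum_comp e (fun x : s => C (u x.1) * P p T x.1.1 ^ j.1)
  obtain ⟨v, hv⟩ := hsn
  have := congrFun hz (s.equivFin ⟨v, hv⟩)
  simp only [he, Equiv.symm_apply_apply, Pi.zero_apply, map_eq_zero] at this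
  exact (mem_filter.1 hv).2 this

end

end Pool.Agent.V11256.CG
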