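import Pool.Agent.V11256.CG.Star
import Pool.Agent.V11256.CG.Indep

/-!
# Multicoloured cliques and colourings of Cayley graphs
-/

set_option autoImplicit false
set_option linter.unusedSectionVars false
set_option linter.unusedVariables false

namespace Pool.Agent.V11256.CG

open Finset

/-- The Cayley graph `X(H, C)`: `h ~ h'` when `h⁻¹ h' ∈ C`. -/
def cay {H : Type*} [Group H] (C : Set H) (h1 : (1 : H) ∉ C) (h2 : ∀ c ∈ C, c⁻¹ ∈ C) :
    SimpleGraph H where
  Adj h h' := h⁻¹ * h' ∈ C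
  symm := ⟨fun h h' hh => by have := h2 _ hh; simpa using this⟩
  loopless := ⟨fun h hh => h1 (by simpa using hh)⟩

variable {G : Type} [Group G] {g : ℕ} (e : G ≃ Fin g) (hg : 2 ≤ g) (a : G) (r T : ℕ)

/-- Digits. -/
def dec (x j : ℕ) : G := e.symm ⟨x / g ^ j % g, Nat.mod_lt _ (by omega)⟩

/-- The points. -/
def w (v j : ℕ) : G := if j < r then dec e hg (v / 3) j else
  a ^ cf T ((j - r) / (5 * T) + 1) v ((j - r) % (5 * T))

/-- The points. -/
def wf (v : ℕ) : Fin (r + 5 * (5 * T)) → G := fun j => w e hg a r T v j.1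

variable (nc : ℕ → ℕ → Prop)

/-- Compatible vertices. -/
def R (v v' : Fin (3 * g ^ r)) : Prop := v.1 / 3 ≠ v'.1 / 3 ∧ nc v.1 v'.1

/-- Differences. -/
def Cs : Set (Fin (r + 5 * (5 * T)) → G) :=
  {c | ∃ v v' : Fin (3 * g ^ r), R r nc v v' ∧ c = (wf e hg a r T v.1)⁻¹ * wf e hg a r T v'.1}

/-- The connection set. -/
def Cc : Set (Fin (r + 5 * (5 * T)) → G) := {c | c ≠ 1 ∧ c ∉ Cs e hg a r T nc}

theorem Cc_one : (1 : Fin (r + 5 * (5 * T)) → G) ∉ Cc e hg a r T nc := fun h => h.1 rfl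

theorem Cc_inv (hnc : ∀ v v', nc v v' → nc v' v) :
    ∀ c ∈ Cc e hg a r T nc, c⁻¹ ∈ Cc e hg a r T nc := by
  rintro c ⟨h1, h2⟩
  refine ⟨by simpa using h1, ?_⟩
  rintro ⟨v, v', ⟨h3, h4⟩, h5⟩
  refine h2 ⟨v', v, ⟨h3.symm, hnc _ _ h4⟩, ?_⟩
  rw [← inv_inv c, h5]
  simp

/-- The graph. -/
def Xg (hnc : ∀ v v', nc v v' → nc v' v) : SimpleGraph (Fin (r + 5 * (5 * T)) → G) :=
  cay (Cc e hg a r T nc) (Cc_one e hg a r T nc) (Cc_inv e hg a r T nc hnc)

variable {nc} (hnc : ∀ v v', nc v v' → nc v' v)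

/-- The clause of a group element. -/
def qf (x : Fin (r + 5 * (5 * T)) → G) : Fin (g ^ r) :=
  finFunctionFinEquiv (fun j : Fin r => e (x ⟨j.1, by omega⟩))

theorem dec_qf (x : Fin (r + 5 * (5 * T)) → G) (j : ℕ) (hj : j < r) :
    dec e hg (qf e r T x).1 j = x ⟨j, by omega⟩ := by
  unfold dec
  rw [Equiv.symm_apply_eq]
  apply Fin.ext
  simp only
  have := finFunctionFinEquiv_symm_apply_val (qf e r T x) (⟨j, hj⟩ : Fin r)
  rw [← this]
  unfold qf
  rw [Equiv.symm_apply_apply]

theorem wf_lt (v : ℕ) (j : Fin (r + 5 * (5 * T))) (hj : j.1 < r) :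
    wf e hg a r T v j = dec e hg (v / 3) j.1 := by
  unfold wf w; rw [if_pos hj]

theorem color_of [Fintype G] (hc : Fintype.card G = g) (f : Fin (g ^ r) → Fin 3)
    (hf : ∀ q q', q ≠ q' → nc (3 * q.1 + (f q).1) (3 * q'.1 + (f q').1)) :
    (Xg e hg a r T nc hnc).Colorable (g ^ (5 * (5 * T))) := by
  set vx : (Fin (r + 5 * (5 * T)) → G) → ℕ := fun x =>
    3 * (qf e r T x).1 + (f (qf e r T x)).1 with hvx
  have hv3 : ∀ x, vx x / 3 = (qf e r T x).1 := by
    intro x
    have := (f (qf e r T x)).2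
    simp only [hvx]; omega
  set col : (Fin (r + 5 * (5 * T)) → G) → (Fin (5 * (5 * T)) → G) := fun x i =>
    (x * (wf e hg a r T (vx x))⁻¹) (Fin.natAdd r i) with hcol
  have hcolx : ∀ x x', col x = col x' → x * (wf e hg a r T (vx x))⁻¹ =
      x' * (wf e hg a r T (vx x'))⁻¹ := by
    intro x x' h
    have hone : ∀ (y : Fin (r + 5 * (5 * T)) → G) (j : Fin (r + 5 * (5 * T))), j.1 < r →
        (y * (wf e hg a r T (vx y))⁻¹) j = 1 := by
      intro y j hj
      rw [Pi.mul_apply, Pi.inv_apply, wf_lt e hg a r T _ j hj, hv3,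
        dec_qf e hg r T y j.1 hj]
      simp
    ext j
    rcases lt_or_ge j.1 r with hj | hj
    · rw [hone x j hj, hone x' j hj]
    · have := congrFun h ⟨j.1 - r, by omega⟩
      simp only [hcol] at this
      have hj' : (Fin.natAdd r ⟨j.1 - r, by omega⟩ : Fin (r + 5 * (5 * T))) = j :=
        Fin.ext (by simp; omega)
      rw [hj'] at this
      exact this
  have C : (Xg e hg a r T nc hnc).Coloring (Fin (5 * (5 * T)) → G) := by
    refine SimpleGraph.Coloring.mk col ?_
    intro x x' hadj heq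
    have h1 := hcolx x x' heq
    have hadj' : x⁻¹ * x' ∈ Cc e hg a r T nc := hadj
    by_cases hq : qf e r T x = qf e r T x'
    · have h2 : vx x = vx x' := by simp only [hvx]; rw [hq]
      rw [h2] at h1
      have := mul_right_cancel h1
      rw [this] at hadj'
      simp only [inv_mul_cancel] at hadj'
      exact hadj'.1 rfl
    · apply hadj'.2
      have hb : ∀ y, vx y < 3 * g ^ r := by
        intro y
        have h1 := (f (qf e r T y)).2
        have h2 := (qf e r T y).2
        simp only [hvx]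
        omega
      refine ⟨⟨vx x, hb x⟩, ⟨vx x', hb x'⟩, ⟨?_, ?_⟩, ?_⟩
      · simp only [hv3]
        exact fun h => hq (Fin.ext h)
      · exact hf _ _ hq
      · have h2 : x' = x * (wf e hg a r T (vx x))⁻¹ * wf e hg a r T (vx x') := by
          rw [h1]; simp
        exact (congrArg (fun z => x⁻¹ * z) h2).trans (by group)
  have h := C.colorable
  rwa [Fintype.card_pi_const, hc] at h

theorem exp_eq {p : ℕ} (hp : orderOf a = p) (c1 c2 c3 c4 c5 c6 : ℕ)
    (h : (a ^ c1)⁻¹ * a ^ c2 * ((a ^ c3)⁻¹ * a ^ c4) = (a ^ c5)⁻¹ * a ^ c6) :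
    ((c2 : ZMod p) - c1 + (c4 - c3) - (c6 - c5)) = 0 := by
  have h1 : a ^ ((c2 : ℤ) - c1 + (c4 - c3) - (c6 - c5)) = 1 := by
    have h2 : a ^ ((c2 : ℤ) - c1 + (c4 - c3) - (c6 - c5)) =
        ((a ^ c1)⁻¹ * a ^ c2 * ((a ^ c3)⁻¹ * a ^ c4)) * ((a ^ c5)⁻¹ * a ^ c6)⁻¹ := by
      simp only [← zpow_natCast, ← zpow_neg, ← zpow_add]
      congr 1
      ring
    rw [h2, h, mul_inv_cancel]
  have h3 := (orderOf_dvd_iff_zpow_eq_one).2 h1
  rw [hp] at h3
  have h4 := (ZMod.intCast_zmod_eq_zero_iff_dvd _ p).2 h3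
  push_cast at h4
  exact h4

theorem sum_dl {p M : ℕ} [Fact p.Prime] (u : Fin M) (F : Fin M → ZMod p) :
    ∑ v, dl (ZMod p) u v * F v = F u := by
  unfold dl
  simp

theorem of_color [Fintype G] (hc : Fintype.card G = g) {p : ℕ} [Fact p.Prime] (hp : orderOf a = p)
    (hT : 0 < T) (hM : 3 * g ^ r ≤ 2 ^ T) (h8 : 8 ≤ g ^ r)
    (h : (Xg e hg a r T nc hnc).Colorable (g ^ (5 * (5 * T)))) :
    ∃ f : Fin (g ^ r) → Fin 3,
      ∀ q q', q ≠ q' → nc (3 * q.1 + (f q).1) (3 * q'.1 + (f q').1) := by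
  classical
  obtain ⟨c⟩ := h
  have hpos : 0 < g ^ (5 * (5 * T)) := Nat.pow_pos (by omega)
  haveI : Nonempty (Fin (g ^ (5 * (5 * T)))) := ⟨⟨0, hpos⟩⟩
  obtain ⟨y, hy⟩ := Fintype.exists_le_card_fiber_of_mul_le_card (f := c) (n := g ^ r) (by
    rw [Fintype.card_fin, Fintype.card_pi_const, hc, ← pow_add, add_comm])
  set S := {x : Fin (r + 5 * (5 * T)) → G // c x = y} with hS
  have hcS : g ^ r ≤ Fintype.card S := by
    rw [Fintype.card_subtype]
    exact hy
  have hM0 : 0 < 3 * g ^ r := by omega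
  have hC : ∀ x x' : S, x ≠ x' → ∃ v v' : Fin (3 * g ^ r), R r nc v v' ∧
      x.1⁻¹ * x'.1 = (wf e hg a r T v.1)⁻¹ * wf e hg a r T v'.1 := by
    intro x x' hxx
    by_contra hn
    have hne : x.1 ≠ x'.1 := fun h => hxx (Subtype.ext h)
    have hadj : (Xg e hg a r T nc hnc).Adj x.1 x'.1 := by
      refine ⟨?_, ?_⟩
      · intro h
        exact hne (inv_mul_eq_one.1 h)
      · rintro ⟨v, v', h1, h2⟩
        exact hn ⟨v, v', h1, h2⟩
    exact c.valid hadj (x.2.trans x'.2.symm)
  have hC' : ∀ x x' : S, ∃ vv : Fin (3 * g ^ r) × Fin (3 * g ^ r), x ≠ x' → R r nc vv.1 vv.2 ∧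
      x.1⁻¹ * x'.1 = (wf e hg a r T vv.1.1)⁻¹ * wf e hg a r T vv.2.1 := by
    intro x x'
    by_cases hxx : x = x'
    · exact ⟨(⟨0, hM0⟩, ⟨0, hM0⟩), fun h => absurd hxx h⟩
    · obtain ⟨v, v', h1, h2⟩ := hC x x' hxx
      exact ⟨(v, v'), fun _ => ⟨h1, h2⟩⟩
  choose vv hvv using hC'
  obtain ⟨f, hf⟩ := star (S := S) (V := Fin (3 * g ^ r)) (K := ZMod p) (R := R r nc)
    (le_trans h8 hcS) (fun v v' h => ⟨h.1.symm, hnc _ _ h.2⟩) (fun v h => h.1 rfl)
    (fun x x' => (vv x x').1) (fun x x' => (vv x x').2) (fun x x' hxx => (hvv x x' hxx).1) (by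
      intro x x' x'' h1 h2 h3
      set U : Fin (3 * g ^ r) → ZMod p := fun v =>
        dl (ZMod p) (vv x x').2 v - dl (ZMod p) (vv x x').1 v +
        (dl (ZMod p) (vv x' x'').2 v - dl (ZMod p) (vv x' x'').1 v) -
        (dl (ZMod p) (vv x x'').2 v - dl (ZMod p) (vv x x'').1 v) with hU
      have hU0 : U = 0 := by
        refine indep p T hT hM U ?_ ?_ ?_
        · refine le_trans (card_le_card (t := {(vv x x').2, (vv x x').1, (vv x' x'').2,
            (vv x' x'').1, (vv x x'').2, (vv x x'').1}) ?_) card_le_six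
          intro v hv
          rw [mem_filter] at hv
          by_contra hn
          simp only [mem_insert, mem_singleton, not_or] at hn
          obtain ⟨n1, n2, n3, n4, n5, n6⟩ := hn
          apply hv.2
          simp only [hU]
          rw [dl_ne n1, dl_ne n2, dl_ne n3, dl_ne n4, dl_ne n5, dl_ne n6]
          simp
        · have h : ∀ u : Fin (3 * g ^ r), ∑ v, dl (ZMod p) u v = 1 := by
            intro u
            have := sum_dl (p := p) u (fun _ => 1)
            simpa using this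
          simp only [hU, sum_sub_distrib, sum_add_distrib, h]
          ring
        · intro k hk l hl
          have hj : k * (5 * T) + l < 5 * (5 * T) := by
            calc k * (5 * T) + l < k * (5 * T) + 5 * T := by omega
              _ = (k + 1) * (5 * T) := by ring
              _ ≤ 5 * (5 * T) := Nat.mul_le_mul_right _ (by omega)
          set j : Fin (r + 5 * (5 * T)) := ⟨r + (k * (5 * T) + l), by omega⟩ with hjd
          have hw : ∀ v : Fin (3 * g ^ r), wf e hg a r T v.1 j = a ^ cf T (k + 1) v.1 l := by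
            intro v
            unfold wf w
            have e0 : ¬ (j.1 < r) := by simp [hjd]
            have e1 : j.1 - r = k * (5 * T) + l := by simp [hjd]
            rw [if_neg e0, e1]
            have e2 : (k * (5 * T) + l) / (5 * T) = k := by
              rw [Nat.mul_comm, Nat.mul_add_div (by omega), Nat.div_eq_of_lt hl, add_zero]
            have e3 : (k * (5 * T) + l) % (5 * T) = l := by
              rw [Nat.mul_comm, Nat.mul_add_mod, Nat.mod_eq_of_lt hl]
            rw [e2, e3]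
          have hx : x.1⁻¹ * x'.1 * (x'.1⁻¹ * x''.1) = x.1⁻¹ * x''.1 := by group
          rw [(hvv x x' h1).2, (hvv x' x'' h2).2, (hvv x x'' h3).2] at hx
          have hx' := congrFun hx j
          simp only [Pi.mul_apply, Pi.inv_apply, hw] at hx'
          have hfin := exp_eq a hp _ _ _ _ _ _ hx'
          simp only [hU, sub_mul, add_mul, sum_sub_distrib, sum_add_distrib]
          rw [sum_dl, sum_dl, sum_dl, sum_dl, sum_dl, sum_dl]
          exact hfin
      intro v
      have := congrFun hU0 v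
      simp only [hU, Pi.zero_apply] at this
      exact sub_eq_zero.1 this)
  -- all clauses are met
  set qm : S → Fin (g ^ r) := fun x => ⟨(f x).1 / 3, by have := (f x).2; omega⟩ with hqm
  have hqi : Function.Injective qm := by
    intro x x' h
    by_contra hxx
    exact (hf x x' hxx).1 (congrArg Fin.val h)
  have hcard : Fintype.card S = Fintype.card (Fin (g ^ r)) :=
    le_antisymm (Fintype.card_le_of_injective qm hqi) (by rw [Fintype.card_fin]; exact hcS)
  have hbij := (Fintype.bijective_iff_injective_and_card qm).2 ⟨hqi, hcard⟩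
  choose s hs using hbij.2
  refine ⟨fun q => ⟨(f (s q)).1 % 3, Nat.mod_lt _ (by norm_num)⟩, ?_⟩
  intro q q' hqq
  have hq : ∀ q, 3 * q.1 + (f (s q)).1 % 3 = (f (s q)).1 := by
    intro q
    have h1 := congrArg Fin.val (hs q)
    simp only [hqm] at h1
    omega
  simp only
  rw [hq q, hq q']
  refine (hf _ _ ?_).2
  intro h
  exact hqq (by rw [← hs q, ← hs q', h])

end Pool.Agent.V11256.CG
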