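import Pool.Agent.V11256.CG.Enc

/-!
# The reduction is computable in polynomial time
-/

set_option autoImplicit false
set_option linter.unusedSectionVars false
set_option linter.unusedVariables false

namespace Pool.Agent.V11256.CG

open Pool.Agent.NPC

theorem size_pow_le (g k : ℕ) : (g ^ k).size ≤ g * k + 1 := by
  rw [Nat.size_le]
  calc g ^ k ≤ (2 ^ g) ^ k := Nat.pow_le_pow_left Nat.lt_two_pow_self.le _
    _ = 2 ^ (g * k) := by rw [pow_mul]
    _ < 2 ^ (g * k + 1) := Nat.pow_lt_pow_right (by norm_num) (by omega)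

theorem pow_poly (g : ℕ) {α : Type} [TEnc α] {m : α → ℕ} (hm : UPoly m) :
    Poly (fun a => g ^ m a) := by
  obtain ⟨q, hq⟩ := NPC.Poly.sz_le hm
  have key : ∀ k : ℕ, (fun s : ℕ => s * g)^[k] 1 = g ^ k := by
    intro k
    induction k with
    | zero => rfl
    | succ k ih => rw [Function.iterate_succ_apply', ih, pow_succ]
  refine (NPC.Poly.iterLen (l := fun a => List.replicate (m a) ()) (s := fun _ => 1)
    (F := fun _ s => s * g) hm (NPC.Poly.const 1)
    (NPC.Poly.mul (NPC.Poly.snd NPC.Poly.id) (NPC.Poly.const g))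
    (Polynomial.C (4 * g) * q + Polynomial.C 5) ?_).congr fun a => ?_
  · intro a k hk
    rw [List.length_replicate] at hk
    rw [key]
    have h1 := sz_nat_le (g ^ k)
    have h2 := size_pow_le g k
    have h3 := hq a
    have h4 := length_lt_sz (List.replicate (m a) ())
    rw [List.length_replicate] at h4
    simp only [Polynomial.eval_add, Polynomial.eval_mul, Polynomial.eval_C]
    have h5 : g * k ≤ g * q.eval (sz a) := Nat.mul_le_mul_left _ (by omega)
    have h6 : 4 * g * Polynomial.eval (sz a) q = 4 * (g * Polynomial.eval (sz a) q) := by ring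
    omega
  · rw [List.length_replicate, key]

section

variable {α : Type} [TEnc α]

theorem rr_upoly {f : α → Φ} (hf : Poly f) : UPoly (fun a => rr (f a)) := by
  unfold rr
  exact UPoly.length (NPC.Poly.natBits (NPC.Poly.add (NPC.Poly.length hf) (NPC.Poly.const 8)))

theorem TT_upoly (g : ℕ) {f : α → Φ} (hf : Poly f) : UPoly (fun a => TT g (f a)) := by
  unfold TT
  exact UPoly.add (UPoly.mul (UPoly.const g) (rr_upoly hf)) (UPoly.const 2)

theorem nn_upoly (g : ℕ) {f : α → Φ} (hf : Poly f) : UPoly (fun a => nn g (f a)) := by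
  unfold nn
  exact UPoly.add (rr_upoly hf) (UPoly.mul (UPoly.const 5) (UPoly.mul (UPoly.const 5)
    (TT_upoly g hf)))

theorem pow_rr_le (g : ℕ) (φ : Φ) : g ^ rr φ ≤ (2 * (φ.length + 8)) ^ g := by
  calc g ^ rr φ ≤ (2 ^ g) ^ rr φ := Nat.pow_le_pow_left Nat.lt_two_pow_self.le _
    _ = (2 ^ rr φ) ^ g := by rw [← pow_mul, ← pow_mul, Nat.mul_comm]
    _ ≤ _ := Nat.pow_le_pow_left (two_rr_le φ) _

theorem powrr_upoly (g : ℕ) {f : α → Φ} (hf : Poly f) : UPoly (fun a => g ^ rr (f a)) := by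
  refine UPoly.of_le (n := fun a => (2 * ((f a).length + 8)) ^ g) (pow_poly g (rr_upoly hf)) ?_
    (fun a => pow_rr_le g (f a))
  have h := UPoly.eval (UPoly.length hf) ((Polynomial.C 2 * (Polynomial.X + Polynomial.C 8)) ^ g)
  refine h.congr fun a => ?_
  simp

theorem MM_upoly (g : ℕ) {f : α → Φ} (hf : Poly f) : UPoly (fun a => MM g (f a)) := by
  unfold MM
  exact UPoly.mul (UPoly.const 3) (powrr_upoly g hf)

theorem NN_eq (g : ℕ) (φ : Φ) : NN g φ = g ^ 50 * (g ^ rr φ) ^ (1 + 25 * g) := by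
  unfold NN nn TT
  rw [← pow_mul, ← pow_add]
  congr 1
  ring

theorem NN_upoly (g : ℕ) {f : α → Φ} (hf : Poly f) : UPoly (fun a => NN g (f a)) := by
  have h := UPoly.eval (powrr_upoly g hf) (Polynomial.C (g ^ 50) * Polynomial.X ^ (1 + 25 * g))
  refine h.congr fun a => ?_
  simp only [NN_eq]
  simp

theorem cl_poly {f : α → Φ} {v : α → ℕ} (hf : Poly f) (hv : Poly v) :
    Poly (fun a => cl (f a) (v a)) := by
  unfold cl
  exact NPC.Poly.getD hf (NPC.Poly.mod (NPC.Poly.div hv (NPC.Poly.const 3)) (NPC.Poly.length hf))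
    (NPC.Poly.const _)

theorem lit_poly {f : α → Φ} {v : α → ℕ} (hf : Poly f) (hv : Poly v) :
    Poly (fun a => lit (f a) (v a)) := by
  unfold lit
  have h1 : Poly (fun a => v a % 3) := NPC.Poly.mod hv (NPC.Poly.const 3)
  have h2 := cl_poly hf hv
  exact NPC.Poly.ite (NPC.Poly.decide_eq h1 (NPC.Poly.const 0)) (NPC.Poly.fst h2)
    (NPC.Poly.ite (NPC.Poly.decide_eq h1 (NPC.Poly.const 1)) (NPC.Poly.fst (NPC.Poly.snd h2))
      (NPC.Poly.snd (NPC.Poly.snd h2)))

theorem RB_poly {f : α → Φ} {v v' : α → ℕ} (hf : Poly f) (hv : Poly v) (hv' : Poly v') :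
    Poly (fun a => RB (f a) (v a) (v' a)) := by
  unfold RB ncB
  have h1 := lit_poly hf hv
  have h2 := lit_poly hf hv'
  refine NPC.Poly.and (NPC.Poly.not (NPC.Poly.decide_eq (NPC.Poly.div hv (NPC.Poly.const 3))
    (NPC.Poly.div hv' (NPC.Poly.const 3)))) (NPC.Poly.or (NPC.Poly.not (NPC.Poly.decide_eq
    (NPC.Poly.snd h1) (NPC.Poly.snd h2))) (NPC.Poly.not (NPC.Poly.xor (NPC.Poly.fst h1)
    (NPC.Poly.fst h2))))

theorem minpow_poly (g : ℕ) {j n : α → ℕ} (hj : Poly j) (hn : UPoly n) :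
    Poly (fun a => g ^ (min (j a) (n a))) :=
  pow_poly g (UPoly.of_le (NPC.Poly.min hj hn.toPoly) hn fun a => min_le_right _ _)

theorem dg_poly (g : ℕ) {n x j : α → ℕ} (hn : UPoly n) (hx : Poly x) (hj : Poly j) :
    Poly (fun a => dg g (n a) (x a) (j a)) := by
  unfold dg
  exact NPC.Poly.mod (NPC.Poly.div hx (minpow_poly g hj hn)) (NPC.Poly.const g)

theorem bt_poly {T v i : α → ℕ} (hT : UPoly T) (hv : Poly v) (hi : Poly i) :
    Poly (fun a => bt (T a) (v a) (i a)) := by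
  unfold bt
  exact NPC.Poly.mod (NPC.Poly.div hv (minpow_poly 2 hi hT)) (NPC.Poly.const 2)

end

theorem cf_poly (k : ℕ) : ∀ {α : Type} [TEnc α] {T v l : α → ℕ} (_ : UPoly T) (_ : Poly v)
    (_ : Poly l), Poly (fun a => cf (T a) k (v a) (l a)) := by
  induction k with
  | zero =>
    intro α _ T v l hT hv hl
    simp only [cf]
    exact NPC.Poly.ite (NPC.Poly.decide_eq hl (NPC.Poly.const 0)) (NPC.Poly.const 1)
      (NPC.Poly.const 0)
  | succ k ih =>
    intro α _ T v l hT hv hl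
    simp only [cf]
    have hT' : UPoly (fun p : α × ℕ => T p.1) := hT.comp (NPC.Poly.fst NPC.Poly.id)
    have hv' : Poly (fun p : α × ℕ => v p.1) := hv.comp (NPC.Poly.fst NPC.Poly.id)
    have hl' : Poly (fun p : α × ℕ => l p.1) := hl.comp (NPC.Poly.fst NPC.Poly.id)
    have hi : Poly (fun p : α × ℕ => p.2) := NPC.Poly.snd NPC.Poly.id
    refine NPC.Poly.sum (NPC.Poly.map (F := fun a i => if i ≤ l a then bt (T a) (v a) i *
      cf (T a) k (v a) (l a - i) else 0) hT.range ?_)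
    exact NPC.Poly.ite (NPC.Poly.decide_le hi hl') (NPC.Poly.mul (bt_poly hT' hv' hi)
      (ih hT' hv' (NPC.Poly.sub hl' hi))) (NPC.Poly.const 0)

section

variable {α : Type} [TEnc α]

theorem cfk_poly {T k v l : α → ℕ} (hT : UPoly T) (hk : Poly k) (hv : Poly v) (hl : Poly l) :
    Poly (fun a => cfk (T a) (k a) (v a) (l a)) := by
  unfold cfk
  exact NPC.Poly.ite (NPC.Poly.decide_eq hk (NPC.Poly.const 1)) (cf_poly 1 hT hv hl)
    (NPC.Poly.ite (NPC.Poly.decide_eq hk (NPC.Poly.const 2)) (cf_poly 2 hT hv hl)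
    (NPC.Poly.ite (NPC.Poly.decide_eq hk (NPC.Poly.const 3)) (cf_poly 3 hT hv hl)
    (NPC.Poly.ite (NPC.Poly.decide_eq hk (NPC.Poly.const 4)) (cf_poly 4 hT hv hl)
      (cf_poly 5 hT hv hl))))

theorem WD_poly (g p : ℕ) (pt : List ℕ) {f : α → Φ} {v j : α → ℕ} (hf : Poly f) (hv : Poly v)
    (hj : Poly j) : Poly (fun a => WD g p pt (f a) (v a) (j a)) := by
  unfold WD
  have hr := (rr_upoly hf).toPoly
  have hT := TT_upoly g hf
  have h5 : Poly (fun a => 5 * TT g (f a)) := NPC.Poly.mul (NPC.Poly.const 5) hT.toPoly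
  have hs := NPC.Poly.sub hj hr
  refine NPC.Poly.ite (NPC.Poly.decide_lt hj hr) (dg_poly g (nn_upoly g hf)
    (NPC.Poly.div hv (NPC.Poly.const 3)) hj) ?_
  refine NPC.Poly.getD (NPC.Poly.const _) (NPC.Poly.mod ?_ (NPC.Poly.const p)) (NPC.Poly.const 0)
  exact cfk_poly hT (NPC.Poly.add (NPC.Poly.div hs h5) (NPC.Poly.const 1)) hv
    (NPC.Poly.mod hs h5)

theorem tb_poly (g : ℕ) (tl : List ℕ) {x y : α → ℕ} (hx : Poly x) (hy : Poly y) :
    Poly (fun a => tb g tl (x a) (y a)) := by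
  unfold tb
  exact NPC.Poly.getD (NPC.Poly.const _) (NPC.Poly.add (NPC.Poly.mul hx (NPC.Poly.const g)) hy)
    (NPC.Poly.const 0)

theorem eqB_poly (g p : ℕ) (pt tl : List ℕ) {f : α → Φ} {x x' v v' : α → ℕ} (hf : Poly f)
    (hx : Poly x) (hx' : Poly x') (hv : Poly v) (hv' : Poly v') :
    Poly (fun a => eqB g p pt tl (f a) (x a) (x' a) (v a) (v' a)) := by
  unfold eqB
  have F : ∀ {β : Type} [TEnc β] {h : α → β}, Poly h → Poly (fun q : α × ℕ => h q.1) :=
    fun h => h.comp (NPC.Poly.fst NPC.Poly.id)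
  have hj : Poly (fun q : α × ℕ => q.2) := NPC.Poly.snd NPC.Poly.id
  have hn : UPoly (fun q : α × ℕ => nn g (f q.1)) := nn_upoly g (F hf)
  refine NPC.Poly.all (p := fun a j => decide (tb g tl (dg g (nn g (f a)) (x a) j)
    (dg g (nn g (f a)) (x' a) j) = tb g tl (WD g p pt (f a) (v a) j) (WD g p pt (f a) (v' a) j)))
    (nn_upoly g hf).range ?_
  exact NPC.Poly.decide_eq (tb_poly g tl (dg_poly g hn (F hx) hj) (dg_poly g hn (F hx') hj))
    (tb_poly g tl (WD_poly g p pt (F hf) (F hv) hj) (WD_poly g p pt (F hf) (F hv') hj))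

theorem adjN_poly (g p : ℕ) (pt tl : List ℕ) {f : α → Φ} {x x' : α → ℕ} (hf : Poly f)
    (hx : Poly x) (hx' : Poly x') : Poly (fun a => adjN g p pt tl (f a) (x a) (x' a)) := by
  unfold adjN
  refine NPC.Poly.and (NPC.Poly.not (NPC.Poly.decide_eq hx hx')) (NPC.Poly.not ?_)
  refine NPC.Poly.any (p := fun a v => (List.range (MM g (f a))).any fun v' => RB (f a) v v' &&
    eqB g p pt tl (f a) (x a) (x' a) v v') (MM_upoly g hf).range ?_
  have F : ∀ {β : Type} [TEnc β] {h : α → β}, Poly h → Poly (fun q : α × ℕ => h q.1) :=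
    fun h => h.comp (NPC.Poly.fst NPC.Poly.id)
  refine NPC.Poly.any (p := fun (q : α × ℕ) v' => RB (f q.1) q.2 v' &&
    eqB g p pt tl (f q.1) (x q.1) (x' q.1) q.2 v') (MM_upoly g (F hf)).range ?_
  have F2 : ∀ {β : Type} [TEnc β] {h : α → β}, Poly h → Poly (fun q : (α × ℕ) × ℕ => h q.1.1) :=
    fun h => h.comp (NPC.Poly.fst (NPC.Poly.fst NPC.Poly.id))
  have hv : Poly (fun q : (α × ℕ) × ℕ => q.1.2) := NPC.Poly.snd (NPC.Poly.fst NPC.Poly.id)
  have hv' : Poly (fun q : (α × ℕ) × ℕ => q.2) := NPC.Poly.snd NPC.Poly.id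
  exact NPC.Poly.and (RB_poly (F2 hf) hv hv') (eqB_poly g p pt tl (F2 hf) (F2 hx) (F2 hx') hv hv')

theorem red_poly (g p : ℕ) (pt tl : List ℕ) : Poly (red g p pt tl) := by
  unfold red VL EL
  have hN : UPoly (fun φ : Φ => NN g φ) := NN_upoly g NPC.Poly.id
  refine NPC.Poly.pair (NPC.Poly.pair hN.range ?_) ?_
  · refine NPC.Poly.flatMap (F := fun (φ : Φ) x => ((List.range (NN g φ)).filter fun x' =>
      adjN g p pt tl φ x x').map fun x' => (x, x')) hN.range ?_
    refine NPC.Poly.map (F := fun (q : Φ × ℕ) x' => (q.2, x')) ?_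
      (NPC.Poly.pair (NPC.Poly.snd (NPC.Poly.fst NPC.Poly.id)) (NPC.Poly.snd NPC.Poly.id))
    refine NPC.Poly.filter (p := fun (q : Φ × ℕ) x' => adjN g p pt tl q.1 q.2 x')
      (NN_upoly g (NPC.Poly.fst NPC.Poly.id)).range ?_
    exact adjN_poly g p pt tl (NPC.Poly.fst (NPC.Poly.fst NPC.Poly.id))
      (NPC.Poly.snd (NPC.Poly.fst NPC.Poly.id)) (NPC.Poly.snd NPC.Poly.id)
  · exact pow_poly g (UPoly.mul (UPoly.const 5) (UPoly.mul (UPoly.const 5)
      (TT_upoly g NPC.Poly.id)))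

end

end Pool.Agent.V11256.CG
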