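import Mathlib

/-!
# Cliques in difference graphs
-/

set_option autoImplicit false
set_option linter.unusedSectionVars false
set_option linter.unusedVariables false

namespace Pool.Agent.V11256.CG

open Finset

variable {S V K : Type*} [Fintype S] [DecidableEq S] [DecidableEq V] [Field K]

/-- The unit vector. -/
def dl (K : Type*) [Field K] (u v : V) : K := if v = u then 1 else 0

@[simp] theorem dl_self (u : V) : dl K u u = 1 := if_pos rfl
theorem dl_ne {u v : V} (h : v ≠ u) : dl K u v = 0 := if_neg h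

/-- Two arcs. -/
theorem arcs {a b a' b' α β : V} (hab : a ≠ b) (hab' : a' ≠ b')
    (h : ∀ v : V, dl K b v - dl K a v + (dl K β v - dl K α v) = dl K b' v - dl K a' v) :
    a = a' ∨ a = b' ∨ b = a' ∨ b = b' := by
  by_contra hc
  push Not at hc
  obtain ⟨h1, h2, h3, h4⟩ := hc
  have ha := h a
  have hb := h b
  have ha' := h a'
  have hb' := h b'
  rw [dl_ne hab, dl_self, dl_ne h2, dl_ne h1] at ha
  rw [dl_ne hab.symm, dl_self, dl_ne h3, dl_ne h4] at hb
  rw [dl_ne h3.symm, dl_ne h1.symm, dl_ne hab', dl_self] at ha'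
  rw [dl_ne h4.symm, dl_ne h2.symm, dl_ne hab'.symm, dl_self] at hb'
  have k : ∀ v : V, (dl K β v - dl K α v ≠ 0) → v = α ∨ v = β := by
    intro v hv
    by_contra hc
    push Not at hc
    exact hv (by rw [dl_ne hc.1, dl_ne hc.2]; simp)
  have ka := k a (by intro h0; rw [h0] at ha; simp at ha)
  have kb := k b (by intro h0; rw [h0] at hb; simp at hb)
  have ka' := k a' (by intro h0; rw [h0] at ha'; simp at ha')
  have kb' := k b' (by intro h0; rw [h0] at hb'; simp at hb')
  rcases ka with rfl | rfl <;> rcases kb with rfl | rfl <;> rcases ka' with rfl | rfl <;>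
    first
      | exact hab rfl
      | exact h1 rfl
      | exact h3 rfl

theorem star {R : V → V → Prop} (hS : 8 ≤ Fintype.card S) (hR : Symmetric R)
    (hirr : ∀ v, ¬ R v v) (α β : S → S → V) (hab : ∀ x x', x ≠ x' → R (α x x') (β x x'))
    (hD : ∀ x x' x'', x ≠ x' → x' ≠ x'' → x ≠ x'' → ∀ v : V,
      dl K (β x x') v - dl K (α x x') v + (dl K (β x' x'') v - dl K (α x' x'') v) =
        dl K (β x x'') v - dl K (α x x'') v) :
    ∃ f : S → V, ∀ x x', x ≠ x' → R (f x) (f x') := by
  have hne : ∀ x x', x ≠ x' → α x x' ≠ β x x' := by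
    intro x x' h e
    have := hab x x' h
    rw [e] at this
    exact hirr _ this
  obtain ⟨x0⟩ : Nonempty S := Fintype.card_pos_iff.1 (by omega)
  set a : S → V := α x0 with ha
  set b : S → V := β x0 with hb
  have hn : ∀ x, x ≠ x0 → a x ≠ b x := fun x hx => hne x0 x hx.symm
  have hE : ∀ x x', x ≠ x0 → x' ≠ x0 → x ≠ x' → ∀ v,
      dl K (b x) v - dl K (a x) v + (dl K (β x x') v - dl K (α x x') v) =
        dl K (b x') v - dl K (a x') v := fun x x' hx hx' hxx => hD x0 x x' hx.symm hxx hx'.symm
  have hI : ∀ x x', x ≠ x0 → x' ≠ x0 → x ≠ x' →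
      a x = a x' ∨ a x = b x' ∨ b x = a x' ∨ b x = b x' := fun x x' hx hx' hxx =>
    arcs (hn x hx) (hn x' hx') (hE x x' hx hx' hxx)
  -- injectivity of the arcs
  have hinj : ∀ x x', x ≠ x0 → x' ≠ x0 → a x = a x' → b x = b x' → x = x' := by
    intro x x' hx hx' e1 e2
    by_contra hxx
    have h1 := hE x x' hx hx' hxx (β x x')
    rw [e1, e2, dl_self, dl_ne (hne x x' hxx).symm] at h1
    simp at h1
  have hcard : 7 ≤ (univ.erase x0 : Finset S).card := by
    rw [card_erase_of_mem (mem_univ _), card_univ]; omega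
  obtain ⟨x1, hx1⟩ : (univ.erase x0 : Finset S).Nonempty := card_pos.1 (by omega)
  rw [mem_erase] at hx1
  have hx1 : x1 ≠ x0 := hx1.1
  -- the centre
  have hcen : ∃ o, ∀ x, x ≠ x0 → a x = o ∨ b x = o := by
    by_contra hc
    push Not at hc
    obtain ⟨x2, h2, h2a, h2b⟩ := hc (a x1)
    obtain ⟨x3, h3, h3a, h3b⟩ := hc (b x1)
    have n12 : x1 ≠ x2 := fun e => h2a (by rw [e])
    have n13 : x1 ≠ x3 := fun e => h3b (by rw [e])
    -- the third point
    obtain ⟨c, hc2, hca, hcb⟩ : ∃ c, ((a x2 = b x1 ∧ b x2 = c) ∨ (b x2 = b x1 ∧ a x2 = c)) ∧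
        c ≠ a x1 ∧ c ≠ b x1 := by
      rcases hI x1 x2 hx1 h2 n12 with h | h | h | h
      · exact absurd h.symm h2a
      · exact absurd h.symm h2b
      · exact ⟨b x2, Or.inl ⟨h.symm, rfl⟩, h2b, fun e => hn x2 h2 (by rw [e, h])⟩
      · exact ⟨a x2, Or.inr ⟨h.symm, rfl⟩, h2a, fun e => hn x2 h2 (by rw [e, h])⟩
    have hn1 := hn x1 hx1
    have hmem2 : ∀ v, (v = a x2 ∨ v = b x2) ↔ (v = b x1 ∨ v = c) := by
      intro v
      rcases hc2 with ⟨e1, e2⟩ | ⟨e1, e2⟩
      · rw [e1, e2]
      · rw [e1, e2]; exact or_comm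
    have n23 : x2 ≠ x3 := by
      rintro rfl
      rcases hc2 with ⟨e1, e2⟩ | ⟨e1, e2⟩
      · exact h3a e1
      · exact h3b e1
    have hmem3 : ∀ v, (v = a x3 ∨ v = b x3) → (v = a x1 ∨ v = c) := by
      -- x3 meets x1 in a x1
      have k1 : a x3 = a x1 ∨ b x3 = a x1 := by
        rcases hI x1 x3 hx1 h3 n13 with h | h | h | h
        · exact Or.inl h.symm
        · exact Or.inr h.symm
        · exact absurd h.symm h3a
        · exact absurd h.symm h3b
      have k2 : a x3 = c ∨ b x3 = c := by
        have k3 : (a x3 = a x2 ∨ a x3 = b x2) ∨ (b x3 = a x2 ∨ b x3 = b x2) := by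
          rcases hI x2 x3 h2 h3 n23 with h | h | h | h
          · exact Or.inl (Or.inl h.symm)
          · exact Or.inr (Or.inl h.symm)
          · exact Or.inl (Or.inr h.symm)
          · exact Or.inr (Or.inr h.symm)
        rw [hmem2, hmem2] at k3
        rcases k3 with (h | h) | (h | h)
        · exact absurd h h3a
        · exact Or.inl h
        · exact absurd h h3b
        · exact Or.inr h
      intro v hv
      have hn3 := hn x3 h3
      rcases k1 with k1 | k1 <;> rcases k2 with k2 | k2
      · exact absurd (k2.symm.trans k1) hca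
      · rw [k1, k2] at hv; exact hv
      · rw [k1, k2] at hv; exact hv.symm
      · exact absurd (k2.symm.trans k1) hca
    have hall : ∀ x, x ≠ x0 → (a x, b x) ∈ ({(a x1, b x1), (b x1, a x1), (a x1, c), (c, a x1),
        (b x1, c), (c, b x1)} : Finset (V × V)) := by
      intro x hx
      have m1 : (a x = a x1 ∨ a x = b x1) ∨ (b x = a x1 ∨ b x = b x1) := by
        by_cases e : x = x1
        · subst e; exact Or.inl (Or.inl rfl)
        · rcases hI x x1 hx hx1 e with h | h | h | h
          · exact Or.inl (Or.inl h)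
          · exact Or.inl (Or.inr h)
          · exact Or.inr (Or.inl h)
          · exact Or.inr (Or.inr h)
      have m2 : (a x = b x1 ∨ a x = c) ∨ (b x = b x1 ∨ b x = c) := by
        rw [← hmem2, ← hmem2]
        by_cases e : x = x2
        · subst e; exact Or.inl (Or.inl rfl)
        · rcases hI x x2 hx h2 e with h | h | h | h
          · exact Or.inl (Or.inl h)
          · exact Or.inl (Or.inr h)
          · exact Or.inr (Or.inl h)
          · exact Or.inr (Or.inr h)
      have m3 : (a x = a x1 ∨ a x = c) ∨ (b x = a x1 ∨ b x = c) := by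
        have : (a x = a x3 ∨ a x = b x3) ∨ (b x = a x3 ∨ b x = b x3) := by
          by_cases e : x = x3
          · subst e; exact Or.inl (Or.inl rfl)
          · rcases hI x x3 hx h3 e with h | h | h | h
            · exact Or.inl (Or.inl h)
            · exact Or.inl (Or.inr h)
            · exact Or.inr (Or.inl h)
            · exact Or.inr (Or.inr h)
        rcases this with h | h
        · exact Or.inl (hmem3 _ h)
        · exact Or.inr (hmem3 _ h)
      have hx' := hn x hx
      simp only [mem_insert, mem_singleton, Prod.mk.injEq]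
      generalize a x = A at *
      generalize b x = B at *
      generalize a x1 = A1 at *
      generalize b x1 = B1 at *
      rcases m1 with (rfl | rfl) | (rfl | rfl)
      · rcases m2 with (h | h) | (h | h)
        · exact absurd h hn1
        · exact absurd h hca.symm
        · tauto
        · tauto
      · rcases m3 with (h | h) | (h | h)
        · exact absurd h.symm hn1
        · exact absurd h hcb.symm
        · tauto
        · tauto
      · rcases m2 with (h | h) | (h | h)
        · tauto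
        · tauto
        · exact absurd h hn1
        · exact absurd h hca.symm
      · rcases m3 with (h | h) | (h | h)
        · tauto
        · tauto
        · exact absurd h.symm hn1
        · exact absurd h hcb.symm
    have hle := card_le_card_of_injOn (s := (univ.erase x0 : Finset S)) (fun x => (a x, b x))
      (t := {(a x1, b x1), (b x1, a x1), (a x1, c), (c, a x1), (b x1, c), (c, b x1)})
      (fun x hx => hall x (mem_erase.1 (mem_coe.1 hx)).1) (by
        intro x hx x' hx' e
        simp only [Prod.mk.injEq] at e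
        exact hinj x x' (mem_erase.1 (mem_coe.1 hx)).1 (mem_erase.1 (mem_coe.1 hx')).1 e.1 e.2)
    have h6 : ({(a x1, b x1), (b x1, a x1), (a x1, c), (c, a x1), (b x1, c), (c, b x1)} :
        Finset (V × V)).card ≤ 6 := card_le_six
    omega
  obtain ⟨o, ho⟩ := hcen
  set f : S → V := fun x => if x = x0 then o else if a x = o then b x else a x with hf
  have hf0 : f x0 = o := if_pos rfl
  have hfx : ∀ x, x ≠ x0 → ((a x = o ∧ b x = f x) ∨ (a x = f x ∧ b x = o)) ∧ f x ≠ o := by
    intro x hx
    simp only [hf, if_neg hx]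
    by_cases h : a x = o
    · rw [if_pos h]
      exact ⟨Or.inl ⟨h, rfl⟩, fun e => hn x hx (h.trans e.symm)⟩
    · rw [if_neg h]
      exact ⟨Or.inr ⟨rfl, (ho x hx).resolve_left h⟩, h⟩
  -- injectivity
  have hfinj : ∀ x x', x ≠ x0 → x' ≠ x0 → x ≠ x' → f x ≠ f x' := by
    intro x x' hx hx' hxx hff
    obtain ⟨h1, h2⟩ := hfx x hx
    obtain ⟨h1', h2'⟩ := hfx x' hx'
    rw [← hff] at h1' h2'
    -- opposite orientations
    have hopp : (a x = o ∧ b x = f x ∧ a x' = f x ∧ b x' = o) ∨
        (a x' = o ∧ b x' = f x ∧ a x = f x ∧ b x = o) := by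
      rcases h1 with ⟨e1, e2⟩ | ⟨e1, e2⟩ <;> rcases h1' with ⟨e3, e4⟩ | ⟨e3, e4⟩
      · exact absurd (hinj x x' hx hx' (e1.trans e3.symm) (e2.trans e4.symm)) hxx
      · exact Or.inl ⟨e1, e2, e3, e4⟩
      · exact Or.inr ⟨e3, e4, e1, e2⟩
      · exact absurd (hinj x x' hx hx' (e1.trans e3.symm) (e2.trans e4.symm)) hxx
    -- two is not zero
    have h20 : (2 : K) ≠ 0 := by
      intro h20
      have e := hE x x' hx hx' hxx (β x x')
      rw [dl_self, dl_ne (hne x x' hxx).symm] at e
      have h11 : ∀ t : K, t + t = 0 := fun t => by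
        have : t + t = 2 * t := by ring
        rw [this, h20, zero_mul]
      have hneg : ∀ t : K, -t = t := fun t => by
        have := h11 t
        exact neg_eq_of_add_eq_zero_left this
      rcases hopp with ⟨e1, e2, e3, e4⟩ | ⟨e3, e4, e1, e2⟩ <;>
      · rw [e1, e2, e3, e4] at e
        simp only [sub_eq_add_neg, hneg, neg_zero, add_zero] at e
        rw [add_comm (dl K _ (β x x')) (dl K _ (β x x'))] at e
        simp at e
    -- a third element
    obtain ⟨z, hz⟩ : (((univ.erase x0).erase x).erase x' : Finset S).Nonempty := by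
      rw [← card_pos, card_erase_of_mem (by simp [hx', hxx.symm]),
        card_erase_of_mem (by simp [hx])]
      omega
    simp only [mem_erase, mem_univ, and_true] at hz
    obtain ⟨hz1, hz2, hz3⟩ := hz
    obtain ⟨h1z, h2z⟩ := hfx z hz3
    have hfz : f z ≠ f x := by
      intro e
      rw [e] at h1z
      rcases h1z with ⟨e5, e6⟩ | ⟨e5, e6⟩ <;> rcases hopp with ⟨e1, e2, e3, e4⟩ | ⟨e3, e4, e1, e2⟩
      · exact hz2 (hinj z x hz3 hx (e5.trans e1.symm) (e6.trans e2.symm))
      · exact hz1 (hinj z x' hz3 hx' (e5.trans e3.symm) (e6.trans e4.symm))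
      · exact hz1 (hinj z x' hz3 hx' (e5.trans e3.symm) (e6.trans e4.symm))
      · exact hz2 (hinj z x hz3 hx (e5.trans e1.symm) (e6.trans e2.symm))
    -- the contradiction
    have key : ∀ u, u ≠ x0 → u ≠ z → f u = f x → ((a u = o ∧ b u = f x ∧ a z = f z ∧ b z = o) ∨
        (a z = o ∧ b z = f z ∧ a u = f x ∧ b u = o)) → False := by
      intro u hu huz hfu hor
      have hE' := hE u z hu hz3 huz
      have k : ∀ v : V, (dl K (β u z) v - dl K (α u z) v ≠ 0) → v = α u z ∨ v = β u z := by
        intro v hv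
        by_contra hc
        push Not at hc
        exact hv (by rw [dl_ne hc.1, dl_ne hc.2]; simp)
      have k3 : (dl K (β u z) o - dl K (α u z) o ≠ 0) ∧
          (dl K (β u z) (f x) - dl K (α u z) (f x) ≠ 0) ∧
          (dl K (β u z) (f z) - dl K (α u z) (f z) ≠ 0) := by
        have E1 := hE' o
        have E2 := hE' (f x)
        have E3 := hE' (f z)
        rcases hor with ⟨e1, e2, e3, e4⟩ | ⟨e3, e4, e1, e2⟩
        · rw [e1, e2, e3, e4] at E1 E2 E3
          rw [dl_self, dl_ne h2.symm, dl_ne h2z.symm] at E1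
          rw [dl_self, dl_ne h2, dl_ne hfz.symm] at E2
          rw [dl_self, dl_ne h2z, dl_ne hfz] at E3
          refine ⟨fun h0 => ?_, fun h0 => ?_, fun h0 => ?_⟩
          · rw [h0] at E1; apply h20; linear_combination -E1
          · rw [h0] at E2; simp at E2
          · rw [h0] at E3; simp at E3
        · rw [e1, e2, e3, e4] at E1 E2 E3
          rw [dl_self, dl_ne h2.symm, dl_ne h2z.symm] at E1
          rw [dl_self, dl_ne h2, dl_ne hfz.symm] at E2
          rw [dl_self, dl_ne h2z, dl_ne hfz] at E3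
          refine ⟨fun h0 => ?_, fun h0 => ?_, fun h0 => ?_⟩
          · rw [h0] at E1; apply h20; linear_combination E1
          · rw [h0] at E2; simp at E2
          · rw [h0] at E3; simp at E3
      have m1 := k _ k3.1
      have m2 := k _ k3.2.1
      have m3 := k _ k3.2.2
      rcases m1 with m1 | m1 <;> rcases m2 with m2 | m2 <;> rcases m3 with m3 | m3
      · exact h2 (m2.trans m1.symm)
      · exact h2 (m2.trans m1.symm)
      · exact h2z (m3.trans m1.symm)
      · exact hfz (m3.trans m2.symm)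
      · exact hfz (m3.trans m2.symm)
      · exact h2z (m3.trans m1.symm)
      · exact h2 (m2.trans m1.symm)
      · exact h2 (m2.trans m1.symm)
    rcases h1z with ⟨e5, e6⟩ | ⟨e5, e6⟩ <;> rcases hopp with ⟨e1, e2, e3, e4⟩ | ⟨e3, e4, e1, e2⟩
    · exact key x' hx' (Ne.symm hz1) hff.symm (Or.inr ⟨e5, e6, e3, e4⟩)
    · exact key x hx (Ne.symm hz2) rfl (Or.inr ⟨e5, e6, e1, e2⟩)
    · exact key x hx (Ne.symm hz2) rfl (Or.inl ⟨e1, e2, e5, e6⟩)
    · exact key x' hx' (Ne.symm hz1) hff.symm (Or.inl ⟨e3, e4, e5, e6⟩)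
  refine ⟨f, ?_⟩
  have hx0 : ∀ x, x ≠ x0 → R (f x0) (f x) := by
    intro x hx
    rw [hf0]
    have := hab x0 x hx.symm
    change R (a x) (b x) at this
    rcases (hfx x hx).1 with ⟨e1, e2⟩ | ⟨e1, e2⟩
    · rw [e1, e2] at this; exact this
    · rw [e1, e2] at this; exact hR this
  intro x x' hxx
  by_cases hx : x = x0
  · subst hx; exact hx0 x' hxx.symm
  by_cases hx' : x' = x0
  · subst hx'; exact hR (hx0 x hx)
  have hE' := hE x x' hx hx' hxx
  have hff := hfinj x x' hx hx' hxx
  obtain ⟨h1, h2⟩ := hfx x hx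
  obtain ⟨h1', h2'⟩ := hfx x' hx'
  have k : ∀ v : V, (dl K (β x x') v - dl K (α x x') v ≠ 0) → v = α x x' ∨ v = β x x' := by
    intro v hv
    by_contra hc
    push Not at hc
    exact hv (by rw [dl_ne hc.1, dl_ne hc.2]; simp)
  have E1 := hE' (f x)
  have E2 := hE' (f x')
  have m1 : f x = α x x' ∨ f x = β x x' := by
    apply k
    intro h0
    rw [h0] at E1
    rcases h1 with ⟨e1, e2⟩ | ⟨e1, e2⟩ <;> rcases h1' with ⟨e3, e4⟩ | ⟨e3, e4⟩ <;>
    · rw [e1, e2, e3, e4, dl_self, dl_ne h2, dl_ne hff] at E1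
      simp at E1
  have m2 : f x' = α x x' ∨ f x' = β x x' := by
    apply k
    intro h0
    rw [h0] at E2
    rcases h1 with ⟨e1, e2⟩ | ⟨e1, e2⟩ <;> rcases h1' with ⟨e3, e4⟩ | ⟨e3, e4⟩ <;>
    · rw [e1, e2, e3, e4, dl_self, dl_ne h2', dl_ne hff.symm] at E2
      simp at E2
  have hRR := hab x x' hxx
  rcases m1 with m1 | m1 <;> rcases m2 with m2 | m2
  · exact absurd (m1.trans m2.symm) hff
  · rw [m1, m2]; exact hRR
  · rw [m1, m2]; exact hR hRR
  · exact absurd (m1.trans m2.symm) hff

end Pool.Agent.V11256.CG
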